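import Pool.Agent.Run7.h414.DP.Fam
import Pool.Agent.Run7.h414.DP.TL
import Pool.Agent.N625.PT.G

/-!
# Hooley's conjecture for all the multiples of random moduli with determinantal digits

The digits of the random integer `v` are given by a determinantal random set `S` of positions (a determinantal point process
with an arbitrary Hermitian kernel): the digit number `i` is `y i` if `i ∈ S` and `x i ≠ y i` otherwise. Examples (their
existence is not used and not formalised): the edges of a uniform spanning tree of a graph with `k` edges; stationary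
determinantal processes with any symbol which is not almost everywhere `0` or almost everywhere `1` (for example the discrete
sine process with any density); independent digits; and all the events for such processes whose probability is at least
`1 / k ^ t`, for example a prescribed number of elements of `S`.

Definitions used (in `Pool.Agent.Run7.h414.DP.Law` and `Pool.Agent.Run7.h414.DP.Fam`): `DetLaw`, `GoodPos`, `DetDigits`.

Method: the characteristic function is `det (1 + D A)`; the inequality `|det N|² ≤ exp (tr N* N - k)` for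
`N = 1 + B D B*`, `A = B* B`, bounds it by `exp (- E)` with an energy `E` which is at least a constant times the number of
the good positions near the places where the frequency is far from the rational numbers with small denominators. So all the
multiples of the random integer have a thin large spectrum. The passage from this to the
variance of the primes in the residue classes is from the starting files (`Pool.Agent.N625.PT.t_hooley`).

`∑ v ∈ range (b ^ k), (if P v then 0 else p v)` is the `p`-weight of the integers `v < b ^ k` without the property `P`.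
-/

set_option autoImplicit false

namespace Pool.Agent.Results.MP_5d318d_nt.DeterminantalModuli

open Finset
open Pool.Agent.Run7.h414.DP (DetDigits fam_dc dom_le dc_tcls)

/-- `ψ(x; q, a) = ∑_{n ≤ x, n ≡ a mod q} Λ(n)` for `0 ≤ a < q` -/
noncomputable def psiAP (x : ℝ) (q a : ℕ) : ℝ :=
  ∑ n ∈ (Icc 1 ⌊x⌋₊).filter (fun n => n % q = a), ArithmeticFunction.vonMangoldt n

/-- The variance `G(x,q) = ∑_{a mod q, (a,q)=1} (ψ(x;q,a) - x/φ(q))²`. -/
noncomputable def G (x : ℝ) (q : ℕ) : ℝ :=
  ∑ a ∈ (range q).filter (fun a => Nat.Coprime a q), (psiAP x q a - x / (Nat.totient q : ℝ)) ^ 2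

/-- `|G(x,Q) - x log Q| ≤ ε x log Q` for ALL real `x` with `Q ≤ x ≤ Q R`. -/
def Good (ε R : ℝ) (Q : ℕ) : Prop :=
  ∀ x : ℝ, (Q : ℝ) ≤ x → x ≤ Q * R → |G x Q - x * Real.log Q| ≤ ε * (x * Real.log Q)

open Classical in
/-- **Hooley's conjecture for all the multiples of the moduli with determinantal digits.** Let `b ≥ 2`, `L`, `η > 0`, `t`,
`κ ≠ 0`, `B`, `J`, `W`, `A`, `U` and `0 < ε ≤ 1` be fixed and let `k` be large. Let `p` be dominated, up to the factor `k ^ t`,
by the distribution of an integer with `k` determinantal digits (`DetDigits b L η t k p`), and let `c` be any integer with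
`|c| ≤ B b ^ k`. Then the `p`-weight of the integers `v < b ^ k` without the following property is at most `1 / k ^ U`: ALL
the integers `q ≥ 1` at a distance of at most `k ^ W` from `c + κ v` and ALL `h` with `1 ≤ h ≤ k ^ J` are such that the
modulus `Q = h q` satisfies `|G(x,Q) - x log Q| ≤ ε x log Q` for ALL real `x` with `Q ≤ x ≤ Q k ^ A`. -/
theorem result (b L : ℕ) (hb : 2 ≤ b) (η : ℝ) (hη : 0 < η) (t : ℕ) (κ : ℤ) (hκ : κ ≠ 0)
    (B J W A U : ℕ) (ε : ℝ) (hε : 0 < ε) (hε1 : ε ≤ 1) :
    ∃ k₀ : ℕ, ∀ k : ℕ, k₀ ≤ k → ∀ p : ℕ → ℝ, DetDigits b L η t k p → ∀ c : ℤ, |c| ≤ B * (b : ℤ) ^ k →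
      ∑ v ∈ range (b ^ k), (if ∀ q : ℕ, 1 ≤ q → |(q : ℤ) - (c + κ * v)| ≤ (k : ℤ) ^ W →
        ∀ h : ℕ, 1 ≤ h → h ≤ k ^ J → Good ε ((k : ℝ) ^ A) (h * q) then 0 else p v) ≤ 1 / (k : ℝ) ^ U := by
  obtain ⟨k₀, hmain⟩ := Pool.Agent.N625.PT.t_hooley (dc_tcls b L hb η hη κ hκ) B J W A (U + t) ε hε hε1
  refine ⟨k₀ + 1, fun k hk p hp c hc => ?_⟩
  obtain ⟨μ, hμ, hpμ⟩ := fam_dc hp
  refine dom_le (by omega) hpμ _ _ (fun v h => h) (hmain k (by omega) μ hμ c hc (fun v => ∀ q : ℕ, 1 ≤ q →
    |(q : ℤ) - (c + κ * v)| ≤ (k : ℤ) ^ W → ∀ h : ℕ, 1 ≤ h → h ≤ k ^ J → Good ε ((k : ℝ) ^ A) (h * q)) ?_)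
  intro v hv
  push Not at hv
  obtain ⟨q, hq1, hq2, h, hh1, hh2, hbad⟩ := hv
  refine ⟨h, hh1, hh2, (q : ℤ) - (c + κ * v), hq2, ?_⟩
  have e : (h : ℤ) * (c + ((q : ℤ) - (c + κ * v)) + κ * v) = ((h * q : ℕ) : ℤ) := by
    push_cast
    ring
  rw [e]
  have h0 : 0 < h * q := Nat.mul_pos hh1 hq1
  refine ⟨by exact_mod_cast h0, ?_⟩
  unfold Good at hbad
  push Not at hbad
  obtain ⟨x, hx1, hx2, hx3⟩ := hbad
  refine ⟨x, ?_, ?_, ?_⟩
  · rw [Int.cast_natCast]
    exact hx1
  · rw [Int.cast_natCast]
    exact hx2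
  · rw [Int.cast_natCast, Int.toNat_natCast]
    exact not_le.2 hx3

end Pool.Agent.Results.MP_5d318d_nt.DeterminantalModuli
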