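import Pool.Agent.Run7.h582.FM.Var

/-!
# Hooley's variance formula for all moduli near `lam n * x + c n`, for almost every `x` of all measures with Fourier decay

Let `N n ≥ exp (n ^ η)`, and let `lam n`, `c n` be real numbers with `N n / log ^ T (N n) ≤ lam n ≤ B N n` and
`|c n| ≤ B N n`. A real number `x` is called generic if for all `A`, `W` and `ε > 0` and for all large `n` Hooley's
asymptotic formula `G(y,Q) ~ y log Q` holds, up to the relative error `ε`, for ALL the moduli `Q` at a distance of at most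
`log ^ W (N n)` from `lam n * x + c n` and for all `y` with `Q ≤ y ≤ Q log ^ A Q`.

Almost every `x` is generic with respect to EVERY finite Borel measure with bounded support whose Fourier transform is
`O (|ξ| ^ (-δ))` for some `δ > 0`. Thus the set of the real numbers which are not generic has Fourier dimension zero.
For example one can take `lam n = b ^ n`, `c n = 0` (all the moduli near the integer formed by the first `n` digits of `x`).

The proof: the measure is replaced by finite families of real numbers with the same exponential sums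
(`Pool.Agent.Run7.h582.FM`); the large spectrum of the multiples of the members of such families is thin, and then the method
of the starting files (`Pool.Agent.Y958.RM`, `Pool.Agent.N384.MQ`) gives the variance for almost all members; the
properties of the exponential sums of finite families of real numbers are from helper844's files (`Pool.Agent.Run7.h844.RP`).
-/

set_option autoImplicit false

namespace Pool.Agent.Results.MP_5d318d_nt.FourierDecayModuli

open Finset Filter MeasureTheory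

/-- `ψ(y; q, a) = ∑_{n ≤ y, n ≡ a mod q} Λ(n)` for `0 ≤ a < q`. -/
noncomputable def psiAP (y : ℝ) (q a : ℕ) : ℝ :=
  ∑ n ∈ (Icc 1 ⌊y⌋₊).filter (fun n => n % q = a), ArithmeticFunction.vonMangoldt n

/-- The variance `G(y,q) = ∑_{a mod q, (a,q)=1} (ψ(y;q,a) - y/φ(q))²`. -/
noncomputable def G (y : ℝ) (q : ℕ) : ℝ :=
  ∑ a ∈ (range q).filter (fun a => Nat.Coprime a q), (psiAP y q a - y / (Nat.totient q : ℝ)) ^ 2

/-- `|G(y,Q) - y log Q| ≤ ε y log Q` for all real `y` with `Q ≤ y ≤ Q (log Q) ^ A`. -/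
def Good (ε : ℝ) (A Q : ℕ) : Prop :=
  ∀ y : ℝ, (Q : ℝ) ≤ y → y ≤ Q * Real.log Q ^ A → |G y Q - y * Real.log Q| ≤ ε * (y * Real.log Q)

/-- `N n ≥ exp (n ^ η)`, `|c n| ≤ B N n` and `N n / log ^ T (N n) ≤ lam n ≤ B N n` for large `n`. -/
def Scales (η : ℝ) (B T : ℕ) (N : ℕ → ℕ) (lam c : ℕ → ℝ) : Prop :=
  ∀ᶠ n : ℕ in atTop, Real.exp ((n : ℝ) ^ η) ≤ N n ∧ |c n| ≤ B * N n ∧ lam n ≤ B * N n ∧
    (N n : ℝ) ≤ lam n * Real.log (N n) ^ T

/-- For all `A`, `W`, `ε > 0` and all large `n`, `Good ε A Q` holds for all the integers `Q ≥ 1` at a distance of at most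
`log ^ W (N n)` from `lam n * x + c n`. -/
def Generic (N : ℕ → ℕ) (lam c : ℕ → ℝ) (x : ℝ) : Prop :=
  ∀ A W : ℕ, ∀ ε : ℝ, 0 < ε → ∀ᶠ n : ℕ in atTop, ∀ Q : ℕ, 0 < Q →
    |(Q : ℝ) - (lam n * x + c n)| ≤ Real.log (N n) ^ W → Good ε A Q

/-- `μ` is a finite Borel measure with bounded support and its Fourier transform `ξ ↦ ∫ exp (i ξ t) dμ (t)` is
`O (|ξ| ^ (-δ))` for some `δ > 0`. -/
def FourierDecay (μ : Measure ℝ) : Prop :=
  IsFiniteMeasure μ ∧ (∃ R : ℝ, μ (Set.Icc (-R) R)ᶜ = 0) ∧ ∃ C δ : ℝ, 0 < δ ∧ ∀ ξ : ℝ, ξ ≠ 0 →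
    ‖∫ t : ℝ, Complex.exp (((ξ * t : ℝ) : ℂ) * Complex.I) ∂μ‖ ≤ C * |ξ| ^ (-δ)

/-- Let `η > 0`, `B`, `T` and sequences `N`, `lam`, `c` with `Scales η B T N lam c` be given. Then almost every real number
`x` is generic with respect to every measure `μ` with `FourierDecay μ`: for all `A`, `W`, `ε > 0` and all large `n`, for ALL
the moduli `Q ≥ 1` with `|Q - (lam n * x + c n)| ≤ log ^ W (N n)` one has `|G(y,Q) - y log Q| ≤ ε y log Q` for all real `y`
with `Q ≤ y ≤ Q log ^ A Q`. -/
theorem result (η : ℝ) (hη : 0 < η) (B T : ℕ) (N : ℕ → ℕ) (lam c : ℕ → ℝ)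
    (hS : Scales η B T N lam c) (μ : Measure ℝ) (hμ : FourierDecay μ) :
    ∀ᵐ x ∂μ, Generic N lam c x := by
  have key := Pool.Agent.Run7.h582.FM.ae_pos
    (fun i : ℕ × ℕ => Pool.Agent.Run7.h582.FM.VarGood (1 / ((i.1 : ℝ) + 1)) i.2)
    (fun i => Pool.Agent.Run7.h582.FM.rcgood_var _ (by positivity) i.2) μ hμ η hη B T N lam c hS
  filter_upwards [key] with x hx A W ε hε
  obtain ⟨k, hk⟩ := exists_nat_one_div_lt hε
  filter_upwards [hx (k, A) W] with n hn Q hQ hQn
  exact (hn Q hQ hQn).mono hk.le hQ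

end Pool.Agent.Results.MP_5d318d_nt.FourierDecayModuli
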