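import Pool.Agent.Run7.h710.TR.Cnt
import Pool.Agent.N625.PT.G

/-!
# Hooley's conjecture for all the multiples of all the moduli near the integers written by a transducer

The integers `v < a ^ k` are arbitrary, up to few exceptions; the transducer `T` reads the digits of `v` in base `a` and
writes the digits of `T(v)` in base `b` (definitions in `Pool.Agent.Run7.h710.TR.Defs`).

Method: if two words of `L` digits lead from the same state to the same state and different words are written, then the two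
parts of the exponential sum over the integers `T(v)` which belong to these words cancel in part at the places where the
frequency has a digit which is not extremal. The passage from such exponential sums to the variance is
from the starting files (`Pool.Agent.N625.PT.t_hooley`).

Examples: the bitwise conjunction or disjunction of `v` and `m v` (the carries are the states); the integer whose digit `i`
is `f(x_i, x_{i+1}, …, x_{i+r})`, where `x_i` are the digits of `v` and `f` is not constant (one-sided cellular automata).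
-/

set_option autoImplicit false

namespace Pool.Agent.Results.MP_5d318d_nt.TransducerModuli

open Finset Pool.Agent.Run7.h710.TR

/-- `ψ(x; q, a) = ∑_{n ≤ x, n ≡ a mod q} Λ(n)` for `0 ≤ a < q` -/
noncomputable def psiAP (x : ℝ) (q a : ℕ) : ℝ :=
  ∑ n ∈ (Icc 1 ⌊x⌋₊).filter (fun n => n % q = a), ArithmeticFunction.vonMangoldt n

/-- The variance `G(x,q) = ∑_{a mod q, (a,q)=1} (ψ(x;q,a) - x/φ(q))²`. -/
noncomputable def G (x : ℝ) (q : ℕ) : ℝ :=
  ∑ a ∈ (range q).filter (fun a => Nat.Coprime a q), (psiAP x q a - x / (Nat.totient q : ℝ)) ^ 2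

/-- `|G(x,Q) - x log Q| ≤ ε x log Q` for ALL real `x` with `Q ≤ x ≤ Q R`. -/
def Good (ε R : ℝ) (Q : ℕ) : Prop :=
  ∀ x : ℝ, (Q : ℝ) ≤ x → x ≤ Q * R → |G x Q - x * Real.log Q| ≤ ε * (x * Real.log Q)

open Classical in
/-- **Hooley's conjecture for all the multiples of the moduli near `c + κ T(v)`.** Let `a`, `b ≥ 2`, `L ≥ 1`, `κ ≠ 0`, `B`, `J`,
`W`, `A`, `U` and `0 < ε ≤ 1` be fixed and let `k` be large. Let an arbitrary transducer be given which reads digits `< a` and writes digits `< b` (with finitely or infinitely many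
states) such that from every state two words of `L` digits lead to the same state, while different words are written; let it
begin in an arbitrary state `s` and read from the left or from the right, and let `c` be any integer with
`|c| ≤ B b ^ k` (`k` must be large in terms of the fixed numbers only). Then all the `v < a ^ k`, with at most `a ^ k / k ^ U`
exceptions, have the following property, where `T(v)` is the integer which is written when `v` is read: for ALL the integers
`q ≥ 1` at a distance of at most `k ^ W` from `c + κ T(v)` and ALL `h` with `1 ≤ h ≤ k ^ J` the modulus `Q = h q` satisfies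
`|G(x,Q) - x log Q| ≤ ε x log Q` for ALL real `x` with `Q ≤ x ≤ Q k ^ A`. -/
theorem result (a b L : ℕ) (hb : 2 ≤ b) (hL : 1 ≤ L) (κ : ℤ) (hκ : κ ≠ 0) (B J W A U : ℕ) (ε : ℝ) (hε : 0 < ε) (hε1 : ε ≤ 1) :
    ∃ k₀ : ℕ, ∀ k : ℕ, k₀ ≤ k → ∀ (S : Type) (δ : S → ℕ → S) (o : S → ℕ → ℕ), Transducer a b L δ o →
      ∀ (left : Bool) (s : S) (c : ℤ), |c| ≤ B * (b : ℤ) ^ k →
      (((range (a ^ k)).filter fun v => ¬ ∀ q : ℕ, 1 ≤ q → |(q : ℤ) - (c + κ * (image a b δ o left k s v : ℕ))| ≤ (k : ℤ) ^ W →
        ∀ h : ℕ, 1 ≤ h → h ≤ k ^ J → Good ε ((k : ℝ) ^ A) (h * q)).card : ℝ) ≤ (a : ℝ) ^ k / (k : ℝ) ^ U := by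
  obtain ⟨k₀, hmain⟩ := Pool.Agent.N625.PT.t_hooley (tr_tcls a b L hb hL κ hκ) B J W A U ε hε hε1
  refine ⟨k₀, fun k hk S δ o hT left s c hc => ?_⟩
  refine exceptions hb hT left k s (fun v => ∀ q : ℕ, 1 ≤ q → |(q : ℤ) - (c + κ * (v : ℕ))| ≤ (k : ℤ) ^ W →
        ∀ h : ℕ, 1 ≤ h → h ≤ k ^ J → Good ε ((k : ℝ) ^ A) (h * q)) U ?_
  refine hmain k hk _ ⟨S, δ, o, left, s, hT, rfl⟩ c hc (fun v => ∀ q : ℕ, 1 ≤ q → |(q : ℤ) - (c + κ * v)| ≤ (k : ℤ) ^ W →
        ∀ h : ℕ, 1 ≤ h → h ≤ k ^ J → Good ε ((k : ℝ) ^ A) (h * q)) ?_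
  intro v hv
  push Not at hv
  obtain ⟨q, hq1, hq2, h, hh1, hh2, hbad⟩ := hv
  refine ⟨h, hh1, hh2, (q : ℤ) - (c + κ * v), hq2, ?_⟩
  have e : (h : ℤ) * (c + ((q : ℤ) - (c + κ * v)) + κ * v) = ((h * q : ℕ) : ℤ) := by
    push_cast
    ring
  rw [e]
  have h0 : 0 < h * q := Nat.mul_pos hh1 hq1
  refine ⟨by exact_mod_cast h0, ?_⟩
  unfold Good at hbad
  push Not at hbad
  obtain ⟨x, hx1, hx2, hx3⟩ := hbad
  refine ⟨x, ?_, ?_, ?_⟩
  · rw [Int.cast_natCast]
    exact hx1
  · rw [Int.cast_natCast]
    exact hx2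
  · rw [Int.cast_natCast, Int.toNat_natCast]
    exact not_le.2 hx3

end Pool.Agent.Results.MP_5d318d_nt.TransducerModuli
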