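import Pool.Agent.Run7.h844.RP.Main2

/-!
# The variance of the primes in progressions, for all the multiples of the moduli near the values of generalised polynomials at primes

Method: exponential sums over primes with the phase of a generalised polynomial: derivative bounds uniform in the
coefficients, van der Corput differencing of all orders, bilinear sums, Vaughan's identity (after `Pool.Agent.H895R3.NK`,
`Pool.Agent.H373R2.T7`); a discrete Fejér kernel for the passage from real numbers to their integer parts, and a kernel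
estimate for the concentration on short intervals which needs only the large frequencies (library
`Pool.Agent.Run7.h844.RP`, after `Pool.Agent.N384.MQ`, `Pool.Agent.N193.PS`). The large spectrum of all the
multiples is thin, and the passage from such exponential sums to the variance of the primes for all the multiples of almost all
moduli is from the starting files (`Pool.Agent.Y958`, `Pool.Agent.Y885`, `Pool.Agent.TH894.PV`), in a generic form:
`Pool.Agent.N625.PT`.
-/

set_option autoImplicit false

namespace Pool.Agent.Results.MP_5d318d_nt.ValuesAtPrimes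

open Finset

/-- The generalised polynomial `∑ a x * t ^ x`, `x ∈ F`, with real exponents and coefficients. -/
noncomputable def genPoly (F : Finset ℝ) (a : ℝ → ℝ) (t : ℝ) : ℝ := ∑ x ∈ F, a x * t ^ x

/-- `c` is the largest exponent; it is positive and not an integer, and its coefficient is not zero. -/
def Leading (F : Finset ℝ) (a : ℝ → ℝ) (c : ℝ) : Prop :=
  c ∈ F ∧ (∀ x ∈ F, x ≤ c) ∧ 0 < c ∧ (∀ m : ℕ, c ≠ m) ∧ a c ≠ 0

/-- `ψ(y; q, a) = ∑_{n ≤ y, n ≡ a mod q} Λ(n)` for `0 ≤ a < q`. -/
noncomputable def psiAP (y : ℝ) (q a : ℕ) : ℝ :=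
  ∑ n ∈ (Icc 1 ⌊y⌋₊).filter (fun n => n % q = a), ArithmeticFunction.vonMangoldt n

/-- The variance `G(y,q) = ∑_{a mod q, (a,q)=1} (ψ(y;q,a) - y/φ(q))²`. -/
noncomputable def G (y : ℝ) (q : ℕ) : ℝ :=
  ∑ a ∈ (range q).filter (fun a => Nat.Coprime a q), (psiAP y q a - y / (Nat.totient q : ℝ)) ^ 2

/-- `|G(y,Q) - y log Q| ≤ ε y log Q` for all real `y` with `Q ≤ y ≤ Q (log Q) ^ T`. -/
def Good (ε : ℝ) (T Q : ℕ) : Prop :=
  ∀ y : ℝ, (Q : ℝ) ≤ y → y ≤ Q * Real.log Q ^ T → |G y Q - y * Real.log Q| ≤ ε * (y * Real.log Q)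

/-- `Good` for all the multiples `h q`, `1 ≤ h ≤ H`, of all the integers `q > 0` at a distance of at most `R` from the real
number `y`. -/
def Near (ε : ℝ) (T : ℕ) (H R y : ℝ) : Prop :=
  ∀ q : ℕ, 0 < q → |(q : ℝ) - y| ≤ R → ∀ h : ℕ, 1 ≤ h → (h : ℝ) ≤ H → Good ε T (h * q)

open Classical in
/-- Let `f` be a generalised polynomial whose largest exponent `c` is positive and not an integer, and let `J`, `T`, `W`, `U` and
`0 < ε ≤ 1` be fixed. If `X` is large and `z` is any real number with `|z| ≤ X ^ c`, then all the primes `X < p ≤ 2 X`, with at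
most `X / log ^ U X` exceptions, have the following property: for ALL the multiples `Q = h q` with `1 ≤ h ≤ log ^ J X` of ALL
the integers `q > 0` at a distance of at most `log ^ W X` from `f(p) + z` one has `|G(y,Q) - y log Q| ≤ ε y log Q` for all real
`y` with `Q ≤ y ≤ Q log ^ T Q`. -/
theorem result (F : Finset ℝ) (a : ℝ → ℝ) (c : ℝ) (hF : Leading F a c) (J T W U : ℕ) (ε : ℝ) (hε : 0 < ε) (hε1 : ε ≤ 1) :
    ∃ X₀ : ℕ, ∀ X : ℕ, X₀ ≤ X → ∀ z : ℝ, |z| ≤ (X : ℝ) ^ c →
      (((Ioc X (2 * X)).filter fun p : ℕ =>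
        p.Prime ∧ ¬ Near ε T (Real.log X ^ J) (Real.log X ^ W) (genPoly F a p + z)).card : ℝ) ≤ X / Real.log X ^ U :=
  Pool.Agent.Run7.h844.RP.var_primes F c hF.1 hF.2.2.2.1 hF.2.2.1 hF.2.1 a hF.2.2.2.2 J W T U ε hε hε1 (Good ε T) 0
    fun _ _ h => h

end Pool.Agent.Results.MP_5d318d_nt.ValuesAtPrimes
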